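import Mathlib

set_option autoImplicit false

open Filter Topology

namespace Pool.Agent.Results.MP_59cc96_an.Coincide

variable {K E : Type*} [RCLike K] [NormedAddCommGroup E] [NormedSpace K E]

/-- `P_(n)`, the span of the first `n` vectors (indices `0, …, n - 1`). -/
def P (K : Type*) [RCLike K] [NormedSpace K E] (x : ℕ → E) (n : ℕ) : Submodule K E :=
  Submodule.span K (x '' Set.Iio n)

/-- The partial sum `∑_{i<n} α_i x_i` as an element of `P_(n)`. -/
def part (x : ℕ → E) (n : ℕ) (α : ℕ → K) : P K x n :=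
  ⟨∑ i ∈ Finset.range n, α i • x i, Submodule.sum_mem _ fun i hi =>
    Submodule.smul_mem _ _ (Submodule.subset_span ⟨i, Finset.mem_range.1 hi, rfl⟩)⟩

/-- Operational basis: complete, minimal, and `y = lim v_n s_n(y)` for some endomorphisms `v_n`. -/
def IsOperational (K : Type*) [RCLike K] [NormedSpace K E] (x : ℕ → E) : Prop :=
  Dense (Submodule.span K (Set.range x) : Set E) ∧
    ∃ f : ℕ → StrongDual K E, (∀ i j, f i (x j) = if i = j then 1 else 0) ∧
      ∃ v : ∀ n, P K x n →ₗ[K] P K x n,
        ∀ y : E, Tendsto (fun n => (v n (part x n fun i => f i y) : E)) atTop (𝓝 y)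

/-- Generalized summation basis with respect to `v`. In (a), `part x n (Pi.single i 1)` is `x_i`
as an element of `P_(n)` as soon as `i < n`. -/
def IsGenSummation (x : ℕ → E) (v : ∀ n, P K x n →ₗ[K] P K x n) : Prop :=
  (∀ i, Tendsto (fun n => (v n (part x n (Pi.single i 1)) : E)) atTop (𝓝 (x i))) ∧
    ∀ y : E, ∃! α : ℕ → K, Tendsto (fun n => (v n (part x n α) : E)) atTop (𝓝 y)

theorem P_mono (x : ℕ → E) {m n : ℕ} (h : m ≤ n) : P K x m ≤ P K x n :=
  Submodule.span_mono (Set.image_mono (Set.Iio_subset_Iio h))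

theorem coef {x : ℕ → E} {f : ℕ → StrongDual K E}
    (hf : ∀ i j, f i (x j) = if i = j then 1 else 0) {n i : ℕ} (hi : i < n) (α : ℕ → K) :
    f i (part x n α) = α i := by
  simp [part, hf, hi]

theorem result {K E : Type*} [RCLike K] [NormedAddCommGroup E] [NormedSpace K E]
    [CompleteSpace E] (x : ℕ → E) (h : IsOperational K x) :
    ∃ v : ∀ n, P K x n →ₗ[K] P K x n, IsGenSummation x v := by
  obtain ⟨-, f, hf, v, hv⟩ := h
  -- the partial sum operator as a linear map
  let s : ∀ m, E →ₗ[K] P K x m := fun m =>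
    { toFun := fun y => part x m fun i => f i y
      map_add' := fun a b => Subtype.ext (by simp [part, add_smul, Finset.sum_add_distrib])
      map_smul' := fun c a => Subtype.ext (by simp [part, Finset.smul_sum, smul_smul]) }
  let V : ℕ → E →ₗ[K] E := fun m => (P K x m).subtype ∘ₗ v m ∘ₗ s m
  let j : ℕ → ℕ := fun n => (Nat.unpair (n / 2)).1
  let c : ℕ → K := fun n => if n % 2 = 1 then ((‖f (j n)‖ + 1 : ℝ) : K)⁻¹ else 0
  let g : ℕ → E →ₗ[K] K := fun n =>
    c n • ((f (j n) : E →ₗ[K] K) ∘ₗ (V (n / 2) - LinearMap.id))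
  let T : ℕ → E →ₗ[K] E := fun n => V (n / 2) + (g n).smulRight (x 0)
  have hT : ∀ n y, T n y ∈ P K x n := fun n y => by
    refine Submodule.add_mem _ (P_mono x (Nat.div_le_self n 2) (v _ (s _ y)).2) ?_
    by_cases hn : n % 2 = 1
    · exact Submodule.smul_mem _ _ (Submodule.subset_span ⟨0, by simp; omega, rfl⟩)
    · simp [g, c, hn]
  have hhalf : Tendsto (fun n : ℕ => n / 2) atTop atTop :=
    tendsto_atTop_atTop.2 fun b => ⟨2 * b, fun a ha => by omega⟩
  have hV : ∀ y, Tendsto (fun n => V (n / 2) y) atTop (𝓝 y) := fun y => (hv y).comp hhalf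
  have hTy : ∀ y, Tendsto (fun n => T n y) atTop (𝓝 y) := fun y => by
    have h1 : Tendsto (fun n => g n y) atTop (𝓝 0) := by
      refine squeeze_zero_norm (a := fun n => ‖V (n / 2) y - y‖) (fun n => ?_)
        (tendsto_iff_norm_sub_tendsto_zero.1 (hV y))
      have a1 := (f (j n)).le_opNorm (V (n / 2) y - y)
      have a2 : ‖c n‖ * ‖f (j n)‖ ≤ 1 := by
        have b1 : 0 < ‖f (j n)‖ + 1 := by positivity
        simp only [c]
        split_ifs
        · rw [norm_inv, RCLike.norm_ofReal, abs_of_pos b1, inv_mul_le_iff₀ b1]; linarith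
        · simp
      calc ‖g n y‖ = ‖c n‖ * ‖f (j n) (V (n / 2) y - y)‖ := by simp [g]
        _ ≤ ‖c n‖ * (‖f (j n)‖ * ‖V (n / 2) y - y‖) := by gcongr
        _ ≤ _ := by rw [← mul_assoc]; exact mul_le_of_le_one_left (norm_nonneg _) a2
    have h2 := (hV y).add (h1.smul_const (x 0))
    rw [zero_smul, add_zero] at h2
    exact h2
  have hs : ∀ {m n : ℕ} (α : ℕ → K), m ≤ n → s m (part x n α) = part x m α := fun {m n} α hmn =>
    Subtype.ext (by
      show ∑ i ∈ Finset.range m, f i (part x n α) • x i = ∑ i ∈ Finset.range m, α i • x i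
      exact Finset.sum_congr rfl fun i hi => by
        rw [coef hf ((Finset.mem_range.1 hi).trans_le hmn)])
  have hpart : ∀ n y, T n (part x n fun i => f i y) = T n y ∨ n ≤ j n := fun n y => by
    rcases lt_or_ge (j n) n with h | h
    · left
      have a1 : V (n / 2) (part x n fun i => f i y) = V (n / 2) y := by
        simp only [V, LinearMap.comp_apply, hs _ (Nat.div_le_self n 2)]; rfl
      simp only [T, g, LinearMap.add_apply, LinearMap.smulRight_apply, LinearMap.smul_apply,
        LinearMap.comp_apply, LinearMap.sub_apply, a1, map_sub, LinearMap.id_apply,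
        ContinuousLinearMap.coe_coe, coef hf h]
    · exact Or.inr h
  have hjn : ∀ n, 1 ≤ n → j n < n := fun n hn =>
    (Nat.unpair_left_le _).trans_lt (by omega)
  have hmain : ∀ y, Tendsto (fun n => T n (part x n fun i => f i y)) atTop (𝓝 y) := fun y =>
    (hTy y).congr' ((eventually_ge_atTop 1).mono fun n hn =>
      ((hpart n y).resolve_right (hjn n hn).not_ge).symm)
  refine ⟨fun n => (T n).restrict (p := P K x n) (q := P K x n) fun y _ => hT n y, fun i => ?_,
    fun y => ⟨fun i => f i y, hmain y, fun α hα => funext fun i => ?_⟩⟩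
  · have : (fun k => f k (x i)) = Pi.single i (1 : K) := by
      ext k; simp [hf, Pi.single_apply]
    simpa [this] using hmain (x i)
  · have hα' : Tendsto (fun n => T n (part x n α)) atTop (𝓝 y) := hα
    have hp : Tendsto (fun t => Nat.pair i t) atTop atTop :=
      tendsto_atTop_mono (fun t => Nat.right_le_pair i t) tendsto_id
    have he := hα'.comp (show Tendsto (fun t => 2 * Nat.pair i t) atTop atTop from
      tendsto_atTop_mono (fun t => by omega) hp)
    have ho := hα'.comp (show Tendsto (fun t => 2 * Nat.pair i t + 1) atTop atTop from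
      tendsto_atTop_mono (fun t => by omega) hp)
    have e1 : ∀ k, T (2 * k) (part x (2 * k) α) = v k (part x k α) := fun k => by
      have : 2 * k / 2 = k := by omega
      simp only [T, g, c, V, LinearMap.add_apply, LinearMap.comp_apply, this]
      rw [hs _ (by omega), this]; simp
    have e2 : ∀ t, T (2 * Nat.pair i t + 1) (part x (2 * Nat.pair i t + 1) α) =
        v _ (part x (Nat.pair i t) α) + (((‖f i‖ + 1 : ℝ) : K)⁻¹ *
          (f i (v _ (part x (Nat.pair i t) α)) - α i)) • x 0 := fun t => by
      have a1 : (2 * Nat.pair i t + 1) / 2 = Nat.pair i t := by omega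
      have a2 : (2 * Nat.pair i t + 1) % 2 = 1 := by omega
      have a3 : i < 2 * Nat.pair i t + 1 := by have := Nat.left_le_pair i t; omega
      simp only [T, g, c, V, j, LinearMap.add_apply, LinearMap.comp_apply, a1, a2,
        LinearMap.smulRight_apply, LinearMap.smul_apply, LinearMap.sub_apply, map_sub,
        LinearMap.id_apply, ContinuousLinearMap.coe_coe, Nat.unpair_pair, coef hf a3, if_true]
      rw [hs _ (by omega), a1]; simp
    simp only [Function.comp_def, e1, e2] at he ho
    have l1 := he.add ((((((f i).continuous.tendsto y).comp he).sub_const (α i)).const_mul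
      (((‖f i‖ + 1 : ℝ) : K)⁻¹)).smul_const (x 0))
    have l2 := tendsto_nhds_unique l1 ho
    have hx0 : x 0 ≠ 0 := fun h => by simpa [h] using hf 0 0
    have hc : (((‖f i‖ + 1 : ℝ) : K)⁻¹) ≠ 0 :=
      inv_ne_zero (RCLike.ofReal_ne_zero.2 (by positivity))
    rw [add_eq_left, smul_eq_zero, mul_eq_zero, sub_eq_zero] at l2
    exact ((l2.resolve_right hx0).resolve_left hc).symm

end Pool.Agent.Results.MP_59cc96_an.Coincide
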